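import Mathlib

set_option autoImplicit false

open Complex Filter Topology Metric

namespace Pool.Agent.Results.MP_757d88_an.EvenFails

/-- `f` belongs to the class `Σ` and has the Laurent coefficients `b`: `f` is holomorphic and
injective on `{|z| > 1}` and `f(z) = z + ∑_{m ≥ 0} b_m z^{-m}` there. -/
def InSigma (f : ℂ → ℂ) (b : ℕ → ℂ) : Prop :=
  DifferentiableOn ℂ f {z | 1 < ‖z‖} ∧ Set.InjOn f {z | 1 < ‖z‖} ∧
    ∀ z : ℂ, 1 < ‖z‖ → HasSum (fun m : ℕ => b m * z⁻¹ ^ m) (f z - z)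

/-! ### power series on the disc -/

noncomputable def coeff (f : ℂ → ℂ) (n : ℕ) : ℂ := iteratedDeriv n f 0 / (n.factorial : ℂ)

def PS (f : ℂ → ℂ) (a : ℕ → ℂ) : Prop := ∀ z ∈ ball (0 : ℂ) 1, HasSum (fun n => a n * z ^ n) (f z)

theorem PS.of_diff {f : ℂ → ℂ} (hf : DifferentiableOn ℂ f (ball 0 1)) : PS f (coeff f) := by
  intro z hz
  have h := Complex.hasSum_taylorSeries_on_ball hf hz
  have e : (fun n : ℕ => coeff f n * z ^ n) =
      (fun n : ℕ ↦ (n.factorial : ℂ)⁻¹ • (z - 0) ^ n • iteratedDeriv n f 0) := by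
    funext n
    simp only [coeff, sub_zero, smul_eq_mul]
    ring
  rw [e]
  exact h

theorem PS.summable_norm {f : ℂ → ℂ} {a : ℕ → ℂ} (hf : PS f a) {r : ℝ} (h0 : 0 ≤ r) (h1 : r < 1) :
    Summable (fun n => ‖a n‖ * r ^ n) := by
  have h := (hf (r : ℂ) (by simpa [abs_of_nonneg h0] using h1)).summable.norm
  refine h.congr (fun n => ?_)
  simp [abs_of_nonneg h0]

theorem PS.hasFPowerSeries {a : ℕ → ℂ} {f : ℂ → ℂ} (ha : PS f a) :
    HasFPowerSeriesOnBall f (FormalMultilinearSeries.ofScalars ℂ a) 0 1 := by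
  refine ⟨?_, by norm_num, ?_⟩
  · refine ENNReal.le_of_forall_nnreal_lt fun r hr => ?_
    have hr1 : (r : ℝ) < 1 := by exact_mod_cast hr
    apply FormalMultilinearSeries.le_radius_of_summable_norm
    have := ha.summable_norm r.2 hr1
    refine Summable.of_nonneg_of_le (fun n => by positivity) (fun n => ?_) this
    have h3 : ‖FormalMultilinearSeries.ofScalars ℂ a n‖ ≤ ‖a n‖ := by simp
    exact mul_le_mul_of_nonneg_right h3 (pow_nonneg r.2 n)
  · intro y hy
    have hy1 : ‖y‖ < 1 := by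
      have : ‖y‖₊ < 1 := by
        simpa [Metric.eball, edist_zero_right, enorm_eq_nnnorm] using hy
      exact_mod_cast this
    have := ha y (by simpa using hy1)
    simpa [FormalMultilinearSeries.ofScalars, smul_eq_mul, mul_comm] using this

theorem PS.unique {a b : ℕ → ℂ} {f : ℂ → ℂ} (ha : PS f a) (hb : PS f b) : a = b := by
  have h := ha.hasFPowerSeries.hasFPowerSeriesAt.eq_formalMultilinearSeries
    hb.hasFPowerSeries.hasFPowerSeriesAt
  funext n
  have h2 := congrArg (fun p => FormalMultilinearSeries.coeff p n) h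
  simpa [FormalMultilinearSeries.coeff_ofScalars] using h2

theorem PS.congr {f g : ℂ → ℂ} {a : ℕ → ℂ} (hf : PS f a) (h : ∀ z ∈ ball (0 : ℂ) 1, g z = f z) :
    PS g a := by
  intro z hz
  rw [h z hz]
  exact hf z hz

theorem PS.add {f g : ℂ → ℂ} {a b : ℕ → ℂ} (hf : PS f a) (hg : PS g b) :
    PS (fun z => f z + g z) (fun n => a n + b n) := by
  intro z hz
  have h := (hf z hz).add (hg z hz)
  simpa [add_mul] using h

theorem PS.const_mul {f : ℂ → ℂ} {a : ℕ → ℂ} (c : ℂ) (hf : PS f a) :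
    PS (fun z => c * f z) (fun n => c * a n) := by
  intro z hz
  have h := (hf z hz).mul_left c
  simpa [mul_assoc] using h

theorem PS_const (x : ℂ) : PS (fun _ => x) (fun n => if n = 0 then x else 0) := by
  intro z _
  have h := hasSum_ite_eq (0 : ℕ) x
  have e : (fun n : ℕ => (if n = 0 then x else 0) * z ^ n) = (fun n : ℕ => if n = 0 then x else 0) := by
    funext n
    by_cases hn : n = 0
    · simp [hn]
    · simp [hn]
  rw [e]
  exact h

/-- shift of a sequence -/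
def shiftSeq (a : ℕ → ℂ) : ℕ → ℂ
  | 0 => 0
  | n + 1 => a n

theorem PS.shift {f : ℂ → ℂ} {a : ℕ → ℂ} (hf : PS f a) :
    PS (fun z => z * f z) (shiftSeq a) := by
  intro z hz
  have h := (hf z hz).mul_left z
  rw [← hasSum_nat_add_iff' 1]
  have e : (fun n : ℕ => shiftSeq a (n + 1) * z ^ (n + 1)) = (fun n : ℕ => z * (a n * z ^ n)) := by
    funext n
    simp only [shiftSeq]
    ring
  rw [e]
  simpa [shiftSeq] using h

/-- Cauchy product. -/
noncomputable def conv (a b : ℕ → ℂ) (n : ℕ) : ℂ := ∑ kl ∈ Finset.HasAntidiagonal.antidiagonal n, a kl.1 * b kl.2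

theorem PS.mul {f g : ℂ → ℂ} {a b : ℕ → ℂ} (hf : PS f a) (hg : PS g b) :
    PS (fun z => f z * g z) (conv a b) := by
  intro z hz
  have h1 := (hf z hz).summable.norm
  have h2 := (hg z hz).summable.norm
  have hs := summable_norm_sum_mul_antidiagonal_of_summable_norm h1 h2
  have hsum := tsum_mul_tsum_eq_tsum_sum_antidiagonal_of_summable_norm h1 h2
  rw [(hf z hz).tsum_eq, (hg z hz).tsum_eq] at hsum
  have e : (fun n => conv a b n * z ^ n) =
      (fun n => ∑ kl ∈ Finset.HasAntidiagonal.antidiagonal n, a kl.1 * z ^ kl.1 * (b kl.2 * z ^ kl.2)) := by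
    funext n
    rw [conv, Finset.sum_mul]
    refine Finset.sum_congr rfl (fun kl hkl => ?_)
    rw [Finset.HasAntidiagonal.mem_antidiagonal] at hkl
    rw [← hkl, pow_add]
    ring
  show HasSum _ (f z * g z)
  rw [e, hsum]
  exact hs.of_norm.hasSum

lemma coeff_deriv (f : ℂ → ℂ) (n : ℕ) : coeff (deriv f) n = (n + 1) * coeff f (n + 1) := by
  unfold coeff
  rw [iteratedDeriv_succ', Nat.factorial_succ]
  have h1 : ((n.factorial : ℕ) : ℂ) ≠ 0 := by exact_mod_cast n.factorial_ne_zero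
  have h2 : ((n : ℂ) + 1) ≠ 0 := by exact_mod_cast n.succ_ne_zero
  push_cast
  field_simp

/-! ### the quadratic -/

lemma quad_ne {x : ℝ} (hx : |x| ≤ 2) {u : ℂ} (hu : ‖u‖ < 1) : 1 - x * u + u ^ 2 ≠ 0 := by
  intro h
  have hn : u.re ^ 2 + u.im ^ 2 < 1 := by
    have : u.re ^ 2 + u.im ^ 2 = ‖u‖ ^ 2 := by
      rw [← normSq_eq_norm_sq, normSq_apply]; ring
    rw [this]
    nlinarith [norm_nonneg u]
  have h1 := congrArg re h
  have h2 := congrArg im h
  simp only [sub_re, add_re, one_re, pow_two, mul_re, zero_re, ofReal_re, ofReal_im] at h1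
  simp only [sub_im, add_im, one_im, pow_two, mul_im, zero_im, ofReal_re, ofReal_im] at h2
  have h3 : u.im * (2 * u.re - x) = 0 := by linarith
  rw [abs_le] at hx
  rcases mul_eq_zero.mp h3 with h4 | h4
  · rw [h4] at h1
    have h5 : (u.re - x / 2) ^ 2 + (1 - x ^ 2 / 4) = 0 := by nlinarith
    have h6 : x ^ 2 ≤ 4 := by nlinarith
    have h7 : (u.re - x / 2) ^ 2 = 0 := by nlinarith [sq_nonneg (u.re - x / 2)]
    have h8 : u.re = x / 2 := by nlinarith [pow_eq_zero_iff (two_ne_zero) |>.mp h7]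
    rw [h8] at hn h5
    nlinarith [sq_nonneg u.im]
  · have h5 : x = 2 * u.re := by linarith
    rw [h5] at h1
    nlinarith

/-- `q(u) = 1 - 2u/5 + u²` -/
noncomputable def q (u : ℂ) : ℂ := 1 - 2 / 5 * u + u ^ 2

lemma q_eq (u : ℂ) : q u = 1 - ((2 / 5 : ℝ) : ℂ) * u + u ^ 2 := by
  unfold q; push_cast; ring

lemma q_ne {u : ℂ} (hu : ‖u‖ < 1) : q u ≠ 0 := by
  rw [q_eq]
  exact quad_ne (by rw [abs_of_pos] <;> norm_num) hu

/-- `q(u) ≠ y u` for real `y` with `-8/5 ≤ y ≤ 8/5`. -/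
lemma q_ne_mul {y : ℝ} (hy : |y| ≤ 8 / 5) {u : ℂ} (hu : ‖u‖ < 1) : q u ≠ y * u := by
  intro h
  have h1 : 1 - ((2 / 5 + y : ℝ) : ℂ) * u + u ^ 2 = 0 := by
    rw [q_eq] at h
    push_cast at h ⊢
    linear_combination h
  refine quad_ne ?_ hu h1
  rw [abs_le] at hy ⊢
  constructor <;> linarith

lemma q_sq_ne {y : ℝ} (hy0 : 0 ≤ y) (hy : y ≤ 8 / 5) {u : ℂ} (hu : ‖u‖ < 1) :
    q u ^ 2 ≠ (y * u) ^ 2 := by
  intro h
  rcases sq_eq_sq_iff_eq_or_eq_neg.mp h with h1 | h1
  · exact q_ne_mul (by rw [abs_of_nonneg hy0]; exact hy) hu h1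
  · refine q_ne_mul (y := -y) (by rw [abs_neg, abs_of_nonneg hy0]; exact hy) hu ?_
    rw [h1]; push_cast; ring

/-- the argument of the square root -/
noncomputable def w (u : ℂ) : ℂ := 1 - (96 / 65 * u) ^ 2 / q u ^ 2

lemma w_mem {u : ℂ} (hu : ‖u‖ < 1) : w u ∈ slitPlane := by
  by_contra hcon
  rw [mem_slitPlane_iff, not_or, not_lt, not_not] at hcon
  obtain ⟨h1, h2⟩ := hcon
  obtain ⟨y, hy⟩ : ∃ y : ℝ, y = 1 - (w u).re := ⟨_, rfl⟩
  have hy1 : 1 ≤ y := by linarith
  have hw : w u = ((1 - y : ℝ) : ℂ) := by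
    apply Complex.ext
    · rw [ofReal_re]; linarith
    · rw [ofReal_im]; exact h2
  have hq := q_ne hu
  have h3 : (96 / 65 * u) ^ 2 = y * q u ^ 2 := by
    unfold w at hw
    have h4 : (96 / 65 * u) ^ 2 / q u ^ 2 = y := by
      push_cast at hw
      linear_combination -hw
    rw [div_eq_iff (pow_ne_zero 2 hq)] at h4
    exact h4
  have hs0 : 0 < Real.sqrt y := Real.sqrt_pos.mpr (by linarith)
  have hs1 : 1 ≤ Real.sqrt y := Real.one_le_sqrt.mpr hy1
  have hs2 : Real.sqrt y ^ 2 = y := Real.sq_sqrt (by linarith)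
  refine q_sq_ne (y := 96 / 65 / Real.sqrt y) (by positivity) ?_ hu ?_
  · rw [div_le_iff₀ hs0]
    linarith
  · have hsc : (Real.sqrt y : ℂ) ≠ 0 := by exact_mod_cast hs0.ne'
    have hs2c : (Real.sqrt y : ℂ) ^ 2 = y := by exact_mod_cast hs2
    push_cast
    rw [div_mul_eq_mul_div, div_pow, eq_div_iff (pow_ne_zero 2 hsc), h3, hs2c]
    ring

/-! ### the square root and the function `G` -/

noncomputable def sq (v : ℂ) : ℂ := exp (log v / 2)

lemma sq_ne (v : ℂ) : sq v ≠ 0 := exp_ne_zero _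

lemma sq_sq {v : ℂ} (hv : v ≠ 0) : sq v ^ 2 = v := by
  unfold sq
  rw [← exp_nat_mul]
  push_cast
  rw [mul_div_cancel₀ _ (two_ne_zero), exp_log hv]

noncomputable def S (u : ℂ) : ℂ := q u * sq (w u)

lemma S_sq {u : ℂ} (hu : ‖u‖ < 1) : S u ^ 2 = q u ^ 2 - (96 / 65 * u) ^ 2 := by
  unfold S
  rw [mul_pow, sq_sq (slitPlane_ne_zero (w_mem hu))]
  unfold w
  have := q_ne hu
  field_simp

noncomputable def G (u : ℂ) : ℂ := -(8 / 13) * u + S u

lemma G_zero : G 0 = 1 := by
  unfold G S w q sq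
  simp

lemma G_ne {u : ℂ} (hu : ‖u‖ < 1) : G u ≠ 0 := by
  intro h
  have h1 : S u = 8 / 13 * u := by unfold G at h; linear_combination h
  have h2 := S_sq hu
  rw [h1] at h2
  refine q_sq_ne (y := 8 / 5) (by norm_num) le_rfl hu ?_
  push_cast
  linear_combination -h2

lemma w_diff : DifferentiableOn ℂ w (ball 0 1) := by
  have hq : DifferentiableOn ℂ q (ball 0 1) := by
    unfold q
    fun_prop
  have h1 : DifferentiableOn ℂ (fun u : ℂ => (96 / 65 * u) ^ 2) (ball 0 1) := by fun_prop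
  exact (h1.div (hq.pow 2) (fun u hu => pow_ne_zero 2 (q_ne (by simpa using hu)))).const_sub 1

lemma G_diff : DifferentiableOn ℂ G (ball 0 1) := by
  have hq : DifferentiableOn ℂ q (ball 0 1) := by
    unfold q
    fun_prop
  have h1 : DifferentiableOn ℂ (fun u => sq (w u)) (ball 0 1) := by
    unfold sq
    exact ((w_diff.clog (fun u hu => w_mem (by simpa using hu))).div_const 2).cexp
  have h2 : DifferentiableOn ℂ (fun u : ℂ => -(8 / 13) * u) (ball 0 1) := by fun_prop
  exact h2.add (hq.mul h1)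

/-- injectivity of `g(ζ) = ζ G(1/ζ)`, in terms of `u = 1/ζ` -/
lemma g_inj {u v : ℂ} (hu : ‖u‖ < 1) (hv : ‖v‖ < 1) (hu0 : u ≠ 0) (hv0 : v ≠ 0)
    (h : G u / u = G v / v) : u = v := by
  have h1 : S u / u = S v / v := by
    unfold G at h
    rw [add_div, add_div, mul_div_assoc, mul_div_assoc, div_self hu0, div_self hv0] at h
    exact add_left_cancel h
  have hqu := q_ne hu
  have hqv := q_ne hv
  have h2 : (q u / u) ^ 2 = (q v / v) ^ 2 := by
    have e1 : (q u / u) ^ 2 = (S u / u) ^ 2 + (96 / 65) ^ 2 := by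
      rw [div_pow (S u), S_sq hu]
      field_simp
      ring
    have e2 : (q v / v) ^ 2 = (S v / v) ^ 2 + (96 / 65) ^ 2 := by
      rw [div_pow (S v), S_sq hv]
      field_simp
      ring
    rw [e1, e2, h1]
  have hw : w u = w v := by
    have e1 : w u = 1 - (96 / 65) ^ 2 / (q u / u) ^ 2 := by
      unfold w
      field_simp
    have e2 : w v = 1 - (96 / 65) ^ 2 / (q v / v) ^ 2 := by
      unfold w
      field_simp
    rw [e1, e2, h2]
  rcases sq_eq_sq_iff_eq_or_eq_neg.mp h2 with h3 | h3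
  · rw [div_eq_div_iff hu0 hv0] at h3
    unfold q at h3
    have h4 : (v - u) * (1 - u * v) = 0 := by linear_combination h3
    rcases mul_eq_zero.mp h4 with h5 | h5
    · exact (sub_eq_zero.mp h5).symm
    · exfalso
      have h6 : u * v = 1 := by linear_combination -h5
      have h7 := congrArg norm h6
      rw [norm_mul, norm_one] at h7
      nlinarith [norm_nonneg u, norm_nonneg v]
  · exfalso
    unfold S at h1
    rw [mul_div_right_comm, mul_div_right_comm, hw, h3] at h1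
    have h4 := mul_right_cancel₀ (sq_ne (w v)) h1
    have h5 : q v / v ≠ 0 := div_ne_zero hqv hv0
    have h6 : (2 : ℂ) * (q v / v) = 0 := by linear_combination -h4
    exact h5 ((mul_eq_zero.mp h6).resolve_left two_ne_zero)

/-! ### logarithm of `G` -/

lemma exists_log : ∃ L : ℂ → ℂ, (∀ u ∈ ball (0 : ℂ) 1, HasDerivAt L (deriv G u / G u) u) ∧
    L 0 = 0 ∧ ∀ u ∈ ball (0 : ℂ) 1, exp (L u) = G u := by
  have hGd : DifferentiableOn ℂ (fun u => deriv G u / G u) (ball 0 1) :=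
    (G_diff.deriv isOpen_ball).div G_diff (fun u hu => G_ne (by simpa using hu))
  obtain ⟨M, hM⟩ := hGd.isExactOn_ball
  obtain ⟨L, hL⟩ : ∃ L : ℂ → ℂ, L = fun u => M u - M 0 := ⟨_, rfl⟩
  have hLd : ∀ u ∈ ball (0 : ℂ) 1, HasDerivAt L (deriv G u / G u) u := by
    intro u hu
    rw [hL]
    exact (hM u hu).sub_const _
  have hL0 : L 0 = 0 := by rw [hL]; simp
  refine ⟨L, hLd, hL0, ?_⟩
  have hder : ∀ u ∈ ball (0 : ℂ) 1, HasDerivAt (fun u => exp (-(L u)) * G u) 0 u := by
    intro u hu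
    have hGa : HasDerivAt G (deriv G u) u :=
      (G_diff.differentiableAt (isOpen_ball.mem_nhds hu)).hasDerivAt
    have h1 := ((hLd u hu).neg.cexp).mul hGa
    have e : exp (-(L u)) * -(deriv G u / G u) * G u + exp (-(L u)) * deriv G u = 0 := by
      have := G_ne (by simpa using hu : ‖u‖ < 1)
      field_simp
      ring
    exact HasDerivAt.congr_deriv h1 e
  have hconst : ∀ u ∈ ball (0 : ℂ) 1, exp (-(L u)) * G u = exp (-(L 0)) * G 0 := by
    intro u hu
    exact (convex_ball (0 : ℂ) 1).is_const_of_fderivWithin_eq_zero (𝕜 := ℂ)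
      (fun v hv => (hder v hv).differentiableAt.differentiableWithinAt)
      (fun v hv => by
        have := (hder v hv).hasFDerivAt.hasFDerivWithinAt (s := ball (0 : ℂ) 1)
        rw [this.fderivWithin (isOpen_ball.uniqueDiffWithinAt hv)]
        ext
        simp) hu (mem_ball_self one_pos)
  intro u hu
  have h1 := hconst u hu
  rw [hL0, G_zero, neg_zero, exp_zero, one_mul, exp_neg] at h1
  have h2 := exp_ne_zero (L u)
  field_simp at h1
  exact h1.symm

/-! ### the coefficients of `G` -/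

lemma coeff_zero (f : ℂ → ℂ) : coeff f 0 = f 0 := by simp [coeff]

lemma G_coeff : coeff G 0 = 1 ∧ coeff G 1 = -(66 / 65) ∧ coeff G 2 = -(383 / 4225) ∧
    coeff G 3 = -(9216 / 21125) := by
  have h0 : coeff G 0 = 1 := by rw [coeff_zero, G_zero]
  have pG := PS.of_diff G_diff
  -- `G + 8u/13`
  have pS := pG.add (((PS_const (8 / 13)).shift))
  have pSS := pS.mul pS
  have pP := (PS_const 1).add ((PS_const (-(4 / 5))).add ((PS_const (54 / 25 - (96 / 65) ^ 2)).add
    ((PS_const (-(4 / 5))).add (PS_const 1).shift).shift).shift).shift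
  have hid : ∀ z ∈ ball (0 : ℂ) 1, (G z + z * (8 / 13)) * (G z + z * (8 / 13)) =
      1 + z * (-(4 / 5) + z * (54 / 25 - (96 / 65) ^ 2 + z * (-(4 / 5) + z * 1))) := by
    intro z hz
    have h1 : G z + z * (8 / 13) = S z := by unfold G; ring
    have h2 := S_sq (by simpa using hz : ‖z‖ < 1)
    rw [h1, ← pow_two, h2]
    unfold q
    ring
  have hu := PS.unique pSS (pP.congr hid)
  have e1 := congrFun hu 1
  have e2 := congrFun hu 2
  have e3 := congrFun hu 3
  simp only [conv, Finset.Nat.antidiagonal_succ, Finset.Nat.antidiagonal_zero,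
    Finset.sum_cons, Finset.map_singleton, Finset.sum_singleton,
    Finset.map_cons, Function.Embedding.prodMap, Function.Embedding.coeFn_mk,
    Function.Embedding.refl_apply, Prod.map, Nat.succ_eq_add_one, shiftSeq, h0] at e1 e2 e3
  norm_num [shiftSeq] at e1 e2 e3
  have r1 : coeff G 1 = -(66 / 65) := by linear_combination (1 / 2) * e1
  rw [r1] at e2 e3
  have r2 : coeff G 2 = -(383 / 4225) := by linear_combination (1 / 2) * e2
  rw [r2] at e3
  have r3 : coeff G 3 = -(9216 / 21125) := by linear_combination (1 / 2) * e3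
  exact ⟨h0, r1, r2, r3⟩

/-! ### the roots -/

section root

variable {L : ℂ → ℂ} (hL : ∀ u ∈ ball (0 : ℂ) 1, HasDerivAt L (deriv G u / G u) u) (hL0 : L 0 = 0)
  (hexp : ∀ u ∈ ball (0 : ℂ) 1, exp (L u) = G u) {d : ℕ} (hd : 3 ≤ d)

/-- `G^{1/d}` -/
noncomputable def r (L : ℂ → ℂ) (d : ℕ) (u : ℂ) : ℂ := exp (L u / d)

include hL in
lemma r_deriv : ∀ u ∈ ball (0 : ℂ) 1, HasDerivAt (r L d) (r L d u * (deriv G u / G u / d)) u :=
  fun u hu => ((hL u hu).div_const (d : ℂ)).cexp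

include hL in
lemma r_diff : DifferentiableOn ℂ (r L d) (ball 0 1) :=
  fun u hu => (r_deriv hL u hu).differentiableAt.differentiableWithinAt

include hexp hd in
lemma r_pow {u : ℂ} (hu : u ∈ ball (0 : ℂ) 1) : r L d u ^ d = G u := by
  unfold r
  rw [← exp_nat_mul, mul_div_cancel₀, hexp u hu]
  exact_mod_cast (by omega : d ≠ 0)

lemma r_ne (u : ℂ) : r L d u ≠ 0 := exp_ne_zero _

include hL hL0 hd in
lemma r_coeff : coeff (r L d) 0 = 1 ∧ (2 : ℝ) / (3 * d) < ‖coeff (r L d) 3‖ := by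
  obtain ⟨g0, g1, g2, g3⟩ := G_coeff
  have hdR : (3 : ℝ) ≤ d := by exact_mod_cast hd
  have hdC : (d : ℂ) ≠ 0 := by exact_mod_cast (by omega : d ≠ 0)
  have h0 : coeff (r L d) 0 = 1 := by
    rw [coeff_zero]
    unfold r
    rw [hL0]
    simp
  refine ⟨h0, ?_⟩
  have pG := PS.of_diff G_diff
  have pG' := PS.of_diff (G_diff.deriv isOpen_ball)
  have pr := PS.of_diff (r_diff (d := d) hL)
  have pr' := PS.of_diff ((r_diff (d := d) hL).deriv isOpen_ball)
  have hid : ∀ z ∈ ball (0 : ℂ) 1, d * (deriv (r L d) z * G z) = deriv G z * r L d z := by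
    intro z hz
    rw [(r_deriv hL z hz).deriv]
    have := G_ne (by simpa using hz : ‖z‖ < 1)
    field_simp
  have hu := PS.unique ((pr'.mul pG).const_mul d) ((pG'.mul pr).congr hid)
  have e0 := congrFun hu 0
  have e1 := congrFun hu 1
  have e2 := congrFun hu 2
  simp only [conv, Finset.Nat.antidiagonal_succ, Finset.Nat.antidiagonal_zero,
    Finset.sum_cons, Finset.map_singleton, Finset.sum_singleton,
    Finset.map_cons, Function.Embedding.prodMap, Function.Embedding.coeFn_mk,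
    Function.Embedding.refl_apply, Prod.map, Nat.succ_eq_add_one, coeff_deriv, h0, g0, g1, g2, g3]
    at e0 e1 e2
  norm_num [g1, g2, g3, h0] at e0 e1 e2
  obtain ⟨x, hx⟩ : ∃ x : ℝ, x = 1 / d := ⟨_, rfl⟩
  have hx0 : 0 < x := by rw [hx]; positivity
  have hx1 : x ≤ 1 / 3 := by
    rw [hx]
    exact one_div_le_one_div_of_le (by norm_num) hdR
  have hxC : (x : ℂ) * d = 1 := by
    rw [hx]
    push_cast
    field_simp
  have r1 : coeff (r L d) 1 = -(66 / 65) * x := by
    linear_combination (x : ℂ) * e0 - coeff (r L d) 1 * hxC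
  rw [r1] at e1 e2
  have r2 : coeff (r L d) 2 = -(383 / 4225) * x + (66 / 65) ^ 2 / 2 * (x ^ 2 - x) := by
    linear_combination (x : ℂ) / 2 * e1 - (coeff (r L d) 2 + (66 / 65) ^ 2 / 2 * x) * hxC
  rw [r2] at e2
  have r3 : coeff (r L d) 3 = ((x * (-(9216 / 21125) - 66 / 65 * (383 / 4225) -
      (66 / 65) ^ 3 / 3 + (66 / 65) * (383 / 4225 + (66 / 65) ^ 2 / 2) * x
      - (66 / 65) ^ 3 / 6 * x ^ 2) : ℝ) : ℂ) := by
    push_cast
    linear_combination (x : ℂ) / 3 * e2 - (66 / 65 * (383 / 4225) * x / 3 -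
      2 * (66 / 65) / 3 * (-(383 / 4225) * x + (66 / 65) ^ 2 / 2 * (x ^ 2 - x)) +
      coeff (r L d) 3) * hxC
  rw [r3, norm_real, Real.norm_eq_abs]
  have e4 : (2 : ℝ) / (3 * d) = 2 / 3 * x := by
    rw [hx]
    field_simp
  rw [e4, abs_mul, abs_of_pos hx0, mul_comm (2 / 3)]
  apply mul_lt_mul_of_pos_left _ hx0
  rw [lt_abs]
  right
  nlinarith [sq_nonneg x]

/-- the `d`-fold symmetric function `z G(z^{-d})^{1/d}` -/
noncomputable def F (L : ℂ → ℂ) (d : ℕ) (z : ℂ) : ℂ := z * r L d (z⁻¹ ^ d)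

/-- its Laurent coefficients -/
noncomputable def bc (L : ℂ → ℂ) (d : ℕ) (m : ℕ) : ℂ :=
  if d ∣ m + 1 then coeff (r L d) ((m + 1) / d) else 0

include hd in
lemma inv_mem {z : ℂ} (hz : 1 < ‖z‖) : z⁻¹ ^ d ∈ ball (0 : ℂ) 1 := by
  rw [mem_ball_zero_iff, norm_pow, norm_inv]
  exact pow_lt_one₀ (by positivity) (inv_lt_one_of_one_lt₀ hz) (by omega)

include hL hL0 hexp hd in
lemma F_mem : InSigma (F L d) (bc L d) := by
  refine ⟨?_, ?_, ?_⟩
  · intro z hz
    rw [Set.mem_ofPred_eq] at hz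
    have hz0 : z ≠ 0 := by
      intro h
      rw [h, norm_zero] at hz
      linarith
    have h1 := r_deriv (d := d) hL _ (inv_mem hd hz)
    have h2 : DifferentiableAt ℂ (fun z : ℂ => z⁻¹ ^ d) z := (differentiableAt_inv hz0).pow d
    have h3 : DifferentiableAt ℂ (fun z : ℂ => r L d (z⁻¹ ^ d)) z :=
      DifferentiableAt.comp (g := r L d) (f := fun z : ℂ => z⁻¹ ^ d) z h1.differentiableAt h2
    exact (differentiableAt_id.mul h3).differentiableWithinAt
  · intro z hz v hv h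
    rw [Set.mem_ofPred_eq] at hz hv
    have hz0 : z ≠ 0 := by
      intro h
      rw [h, norm_zero] at hz
      linarith
    have hv0 : v ≠ 0 := by
      intro h
      rw [h, norm_zero] at hv
      linarith
    have hzm := inv_mem hd hz
    have hvm := inv_mem hd hv
    have h1 := congrArg (fun x => x ^ d) h
    simp only [F, mul_pow] at h1
    rw [r_pow hexp hd hzm, r_pow hexp hd hvm] at h1
    have e : ∀ x : ℂ, x ≠ 0 → x ^ d * G (x⁻¹ ^ d) = G (x⁻¹ ^ d) / (x⁻¹ ^ d) := by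
      intro x hx
      rw [inv_pow, div_inv_eq_mul, mul_comm]
    rw [e z hz0, e v hv0] at h1
    have h2 := g_inj (by simpa using hzm) (by simpa using hvm)
      (pow_ne_zero d (inv_ne_zero hz0)) (pow_ne_zero d (inv_ne_zero hv0)) h1
    unfold F at h
    rw [h2] at h
    exact mul_right_cancel₀ (r_ne _) h
  · intro z hz
    have hz0 : z ≠ 0 := by
      intro h
      rw [h, norm_zero] at hz
      linarith
    have hm := inv_mem hd hz
    have h1 := PS.of_diff (r_diff (d := d) hL) _ hm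
    have h0 := (r_coeff hL hL0 hd).1
    rw [← hasSum_nat_add_iff' 1] at h1
    simp only [Finset.range_one, Finset.sum_singleton, pow_zero, mul_one, h0] at h1
    have h2 := h1.mul_left z
    have hinj : Function.Injective (fun k : ℕ => d * k + (d - 1)) := by
      intro k l hkl
      have : d * k = d * l := by
        have := hkl
        simp only at this
        omega
      exact Nat.eq_of_mul_eq_mul_left (by omega) this
    have h3 : ∀ m ∉ Set.range (fun k : ℕ => d * k + (d - 1)), bc L d m * z⁻¹ ^ m = 0 := by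
      intro m hm
      unfold bc
      rw [if_neg, zero_mul]
      rintro ⟨k, hk⟩
      apply hm
      have hk0 : k ≠ 0 := by
        intro h
        rw [h, mul_zero] at hk
        omega
      obtain ⟨l, rfl⟩ := Nat.exists_eq_succ_of_ne_zero hk0
      refine ⟨l, ?_⟩
      simp only
      rw [Nat.succ_eq_add_one, Nat.mul_add, mul_one] at hk
      omega
    rw [← hinj.hasSum_iff h3]
    have e : F L d z - z = z * (r L d (z⁻¹ ^ d) - 1) := by unfold F; ring
    rw [e]
    refine h2.congr_fun ?_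
    intro k
    simp only [Function.comp]
    have hidx : d * k + (d - 1) + 1 = d * (k + 1) := by
      rw [Nat.mul_add, mul_one]
      omega
    have hbc : bc L d (d * k + (d - 1)) = coeff (r L d) (k + 1) := by
      unfold bc
      rw [hidx, if_pos (dvd_mul_right _ _), Nat.mul_div_cancel_left _ (by omega)]
    rw [hbc, ← pow_mul, ← hidx, pow_succ]
    have : z * (z⁻¹ ^ (d * k + (d - 1)) * z⁻¹) = z⁻¹ ^ (d * k + (d - 1)) := by
      field_simp
    linear_combination (-(coeff (r L d) (k + 1))) * this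

end root

/-- (1) There are an even `n ≥ 4` and `f ∈ Σ` with `|b_n| > 2/(n+1)`. (2) In fact such an `f ∈ Σ`
exists for every `n ≥ 8` with `n ≡ 2 (mod 3)`, in particular for all even `n ≡ 2 (mod 6)`,
`n ≥ 8`. -/
theorem result :
    (∃ n : ℕ, 4 ≤ n ∧ Even n ∧ ∃ (f : ℂ → ℂ) (b : ℕ → ℂ), InSigma f b ∧
      (2 : ℝ) / (n + 1) < ‖b n‖) ∧
    (∀ n : ℕ, 8 ≤ n → n % 3 = 2 → ∃ (f : ℂ → ℂ) (b : ℕ → ℂ), InSigma f b ∧
      (2 : ℝ) / (n + 1) < ‖b n‖) := by
  have key : ∀ n : ℕ, 8 ≤ n → n % 3 = 2 → ∃ (f : ℂ → ℂ) (b : ℕ → ℂ), InSigma f b ∧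
      (2 : ℝ) / (n + 1) < ‖b n‖ := by
    intro n hn hn3
    obtain ⟨d, hd⟩ : ∃ d, n + 1 = d * 3 := ⟨(n + 1) / 3, by omega⟩
    have hd3 : 3 ≤ d := by omega
    obtain ⟨L, hL, hL0, hexp⟩ := exists_log
    refine ⟨F L d, bc L d, F_mem hL hL0 hexp hd3, ?_⟩
    have h1 := (r_coeff hL hL0 hd3).2
    have e : bc L d n = coeff (r L d) 3 := by
      unfold bc
      rw [hd, if_pos (dvd_mul_right _ _), Nat.mul_div_cancel_left _ (by omega)]
    have e2 : ((n : ℝ) + 1) = 3 * d := by
      have : ((n + 1 : ℕ) : ℝ) = ((d * 3 : ℕ) : ℝ) := by rw [hd]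
      push_cast at this
      linarith
    rw [e, e2]
    exact h1
  exact ⟨⟨8, by norm_num, by decide, key 8 le_rfl (by norm_num)⟩, key⟩

end Pool.Agent.Results.MP_757d88_an.EvenFails
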